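import Pool.Agent.Helper65.EV.St

/-!
# Project EV, module PHI: small reproduction sizes and the function `phi`
-/

set_option autoImplicit false

open MeasureTheory ProbabilityTheory Set Filter
open scoped ENNReal Topology

namespace Pool.Agent.Helper22.EV

open Pool.Agent.Helper65.EV Pool.Agent.Helper84.Eve

private lemma pow_bound (s u : ℝ) (hs : 1 ≤ s) (_hu : 0 < u) (hu' : u ≤ Real.exp (-s)) :
    1 / 8 ≤ (1 - u) ^ ⌈Real.exp s⌉₊ := by
  obtain ⟨t, ht⟩ : ∃ t : ℝ, t = Real.exp (-s) := ⟨_, rfl⟩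
  obtain ⟨x, hx⟩ : ∃ x : ℝ, x = Real.exp s := ⟨_, rfl⟩
  have hx0 : 0 < x := by rw [hx]; exact Real.exp_pos s
  have ht0 : 0 < t := by rw [ht]; exact Real.exp_pos _
  have hxt : x * t = 1 := by
    rw [hx, ht, ← Real.exp_add]
    simp
  have hx1 : 2.718 ≤ x := by
    have h1 := Real.exp_one_gt_d9
    have h2 : Real.exp 1 ≤ x := by rw [hx]; exact Real.exp_le_exp.2 hs
    linarith
  have ht1 : t ≤ 0.368 := by
    by_contra hcon
    have h1 : (0.368 : ℝ) < t := not_le.1 hcon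
    nlinarith
  have hb : ((⌈x⌉₊ : ℕ) : ℝ) ≤ x + 1 := (Nat.ceil_lt_add_one hx0.le).le
  rw [← hx]
  rw [← ht] at hu'
  have h1t : 0 < 1 - t := by linarith
  have hlog : -(t + t ^ 2 / 2 + t ^ 3 / (1 - t)) ≤ Real.log (1 - t) := by
    have h1 := Real.abs_log_sub_add_sum_range_le (x := t) (by rw [abs_of_pos ht0]; linarith) 2
    rw [abs_of_pos ht0] at h1
    simp only [Finset.sum_range_succ, Finset.sum_range_zero] at h1
    have h2 := (abs_le.1 h1).1
    norm_num at h2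
    linarith
  have hfrac : t ^ 3 / (1 - t) ≤ t * (0.368 * 0.368 / 0.632) := by
    rw [div_le_iff₀ h1t]
    have h3 : t ^ 2 ≤ 0.368 * 0.368 := by nlinarith
    have h4 : (0.632 : ℝ) ≤ 1 - t := by linarith
    have h5 : t ^ 3 ≤ t * (0.368 * 0.368) := by nlinarith
    have h6 : t * (0.368 * 0.368) ≤ t * (0.368 * 0.368 / 0.632) * (1 - t) := by
      have : t * (0.368 * 0.368) = t * (0.368 * 0.368 / 0.632) * 0.632 := by ring
      rw [this]
      exact mul_le_mul_of_nonneg_left h4 (by positivity)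
    linarith
  have hlog2 : -(t * (1 + 0.184 + 0.368 * 0.368 / 0.632)) ≤ Real.log (1 - t) := by
    have h3 : t ^ 2 / 2 ≤ t * 0.184 := by nlinarith
    have h4 : t * (1 + 0.184 + 0.368 * 0.368 / 0.632) =
      t + t * 0.184 + t * (0.368 * 0.368 / 0.632) := by ring
    rw [h4]
    linarith
  have hblog : -(3 * Real.log 2) ≤ ((⌈x⌉₊ : ℕ) : ℝ) * Real.log (1 - t) := by
    have h3 : Real.log (1 - t) ≤ 0 := Real.log_nonpos h1t.le (by linarith)
    have h4 : (x + 1) * Real.log (1 - t) ≤ ((⌈x⌉₊ : ℕ) : ℝ) * Real.log (1 - t) :=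
      mul_le_mul_of_nonpos_right hb h3
    have h5 : (x + 1) * -(t * (1 + 0.184 + 0.368 * 0.368 / 0.632)) ≤
        (x + 1) * Real.log (1 - t) := mul_le_mul_of_nonneg_left hlog2 (by linarith)
    have h6 : (x + 1) * -(t * (1 + 0.184 + 0.368 * 0.368 / 0.632)) =
        -((1 + t) * (1 + 0.184 + 0.368 * 0.368 / 0.632)) := by
      have : (x + 1) * -(t * (1 + 0.184 + 0.368 * 0.368 / 0.632)) =
        -((x * t + t) * (1 + 0.184 + 0.368 * 0.368 / 0.632)) := by ring
      rw [this, hxt]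
    have h7 := Real.log_two_gt_d9
    have h8 : (1 + t) * (1 + 0.184 + 0.368 * 0.368 / 0.632) ≤ 2 := by
      have : (1 + t) * (1 + 0.184 + 0.368 * 0.368 / 0.632) ≤
        (1 + 0.368) * (1 + 0.184 + 0.368 * 0.368 / 0.632) :=
        mul_le_mul_of_nonneg_right (by linarith) (by norm_num)
      refine this.trans ?_
      norm_num
    linarith
  have hmain : 1 / 8 ≤ (1 - t) ^ ⌈x⌉₊ := by
    have h3 : (1 - t) ^ ⌈x⌉₊ = Real.exp (((⌈x⌉₊ : ℕ) : ℝ) * Real.log (1 - t)) := by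
      rw [Real.exp_nat_mul, Real.exp_log h1t]
    rw [h3]
    have h4 : (1 / 8 : ℝ) = Real.exp (-(3 * Real.log 2)) := by
      rw [Real.exp_neg, show (3 : ℝ) * Real.log 2 = ((3 : ℕ) : ℝ) * Real.log 2 by norm_num,
        Real.exp_nat_mul, Real.exp_log (by norm_num)]
      norm_num
    rw [h4]
    exact Real.exp_le_exp.2 hblog
  refine hmain.trans ?_
  exact pow_le_pow_left₀ h1t.le (by linarith) _

theorem hPHI : hPHI := by
  intro Λ hΛ s hs
  unfold phi
  rw [← lintegral_const_mul' _ _ (by norm_num)]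
  calc ∫⁻ u in Ioc 0 (Real.exp (-s)), ENNReal.ofReal u ∂(nu Λ)
      ≤ ∫⁻ u in Ioc 0 (Real.exp (-s)), 8 * (ENNReal.ofReal u *
          ENNReal.ofReal (1 - u) ^ ⌈Real.exp s⌉₊) ∂(nu Λ) := by
        refine setLIntegral_mono' measurableSet_Ioc ?_
        intro u hu
        have h1 := pow_bound s u hs hu.1 hu.2
        have h2 : (1 : ℝ≥0∞) ≤ 8 * ENNReal.ofReal (1 - u) ^ ⌈Real.exp s⌉₊ := by
          have h3 : u ≤ 1 := hu.2.trans (Real.exp_le_one_iff.2 (by linarith))
          rw [← ENNReal.ofReal_pow (by linarith)]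
          have h4 : (8 : ℝ≥0∞) = ENNReal.ofReal 8 := by norm_num
          rw [h4, ← ENNReal.ofReal_mul (by norm_num), ← ENNReal.ofReal_one]
          apply ENNReal.ofReal_le_ofReal
          linarith
        calc ENNReal.ofReal u = ENNReal.ofReal u * 1 := (mul_one _).symm
          _ ≤ ENNReal.ofReal u * (8 * ENNReal.ofReal (1 - u) ^ ⌈Real.exp s⌉₊) :=
              mul_le_mul_right h2 _
          _ = _ := by ring
    _ ≤ ∫⁻ u, 8 * (ENNReal.ofReal u * ENNReal.ofReal (1 - u) ^ ⌈Real.exp s⌉₊) ∂(nu Λ) :=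
        setLIntegral_le_lintegral _ _

end Pool.Agent.Helper22.EV
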